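import Pool.Agent.Lib.MP_5e7226_co.R3Final

set_option autoImplicit false
open scoped InnerProductSpace

namespace Pool.Agent.Lib.MP_5e7226_co.Variants.AffineSymmetryE3

/-- Let `K` be a convex body in `E^3` with an interior point `o`, and let `A` be a linear map such
that the affine map `x ↦ o + A (x - o)` maps `K` onto itself. If the fourth power of `A` is not the
identity, or if `A` has positive determinant and its square is not the identity, then `8` planes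
suffice to strictly separate every face of `K` from `o`. -/
theorem result (K : Set (EuclideanSpace ℝ (Fin 3))) (hconv : Convex ℝ K) (hK : IsCompact K)
    (o : EuclideanSpace ℝ (Fin 3)) (ho : o ∈ interior K)
    (A : EuclideanSpace ℝ (Fin 3) → EuclideanSpace ℝ (Fin 3)) (hlin : IsLinearMap ℝ A)
    (hA : (fun x => o + A (x - o)) '' K = K)
    (h : (0 < LinearMap.det (hlin.mk' A) ∧ A ∘ A ≠ id) ∨ A ∘ A ∘ A ∘ A ≠ id) :
    ∃ w : Fin 8 → EuclideanSpace ℝ (Fin 3), ∃ b : Fin 8 → ℝ,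
      ∀ u x₀ : EuclideanSpace ℝ (Fin 3), u ≠ 0 → x₀ ∈ K →
        (∀ y ∈ K, ⟪u, y⟫_ℝ ≤ ⟪u, x₀⟫_ℝ) →
          ∃ i, ⟪w i, o⟫_ℝ < b i ∧
            ∀ x ∈ K, ⟪u, x⟫_ℝ = ⟪u, x₀⟫_ℝ → b i < ⟪w i, x⟫_ℝ := by
  refine Pool.Agent.Lib.MP_5e7226_co.sep_to_hyperplanes hK o
    (Pool.Agent.Lib.MP_5e7226_co.affine_sep' hconv hK o ho (hlin.mk' A) hA ?_)
  rcases h with ⟨h1, h2⟩ | h2
  · left
    obtain ⟨x, hx⟩ := Function.ne_iff.mp h2
    exact ⟨h1, x, hx⟩
  · right
    obtain ⟨x, hx⟩ := Function.ne_iff.mp h2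
    exact ⟨x, hx⟩

end Pool.Agent.Lib.MP_5e7226_co.Variants.AffineSymmetryE3
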