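import Pool.Agent.Lib.MP_5e7226_co.HL.C6

open Set
open scoped InnerProductSpace

namespace Pool.Agent.Results.MP_5e7226_co.AllSymmetric

/-- `s(K, o) ≤ n`: some `n` hyperplanes strictly separate every face of `K` from `o`. -/
def SeparatedBy {d : ℕ} (K : Set (EuclideanSpace ℝ (Fin d))) (o : EuclideanSpace ℝ (Fin d))
    (n : ℕ) : Prop :=
  ∃ w : Fin n → EuclideanSpace ℝ (Fin d), ∃ b : Fin n → ℝ,
    ∀ u x₀ : EuclideanSpace ℝ (Fin d), u ≠ 0 → x₀ ∈ K →
      (∀ y ∈ K, ⟪u, y⟫_ℝ ≤ ⟪u, x₀⟫_ℝ) →
        ∃ i, ⟪w i, o⟫_ℝ < b i ∧ ∀ x ∈ K, ⟪u, x⟫_ℝ = ⟪u, x₀⟫_ℝ → b i < ⟪w i, x⟫_ℝ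

/-- The polar body of `K` at `o`, i.e. the set of all `x` with `⟪x, y - o⟫ ≤ 1` for all `y ∈ K`,
is centrally symmetric about some point `z`. If `K` is centrally symmetric about `o`, then `z = 0`
is such a point. -/
def PolarSymmetric {d : ℕ} (K : Set (EuclideanSpace ℝ (Fin d)))
    (o : EuclideanSpace ℝ (Fin d)) : Prop :=
  ∃ z : EuclideanSpace ℝ (Fin d), ∀ x : EuclideanSpace ℝ (Fin d),
    (∀ y ∈ K, ⟪x, y - o⟫_ℝ ≤ 1) → ∀ y ∈ K, ⟪z + (z - x), y - o⟫_ℝ ≤ 1

/-- `I(K) ≤ n`: some `n` points outside `K` illuminate every boundary point `q` of `K`: the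
half-line from one of them through `q` meets the interior of `K` at a point beyond `q`. -/
def IlluminatedBy {d : ℕ} (K : Set (EuclideanSpace ℝ (Fin d))) (n : ℕ) : Prop :=
  ∃ p : Fin n → EuclideanSpace ℝ (Fin d), (∀ i, p i ∉ K) ∧
    ∀ q ∈ frontier K, ∃ i, ∃ s : ℝ, 0 < s ∧ q + s • (q - p i) ∈ interior K

/-- For every `d ≥ 1` and every convex body `K ⊂ E^d`: `s(K, o) ≤ 17 d 2^d` for every interior point
`o` of `K` such that the polar body of `K` at `o` has a centre of symmetry (for instance if `K` is
centrally symmetric about `o`); dually, if `K` itself has a centre of symmetry then its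
illumination number is at most `17 d 2^d`. -/
theorem result : ∀ d : ℕ, 1 ≤ d → ∀ K : Set (EuclideanSpace ℝ (Fin d)), Convex ℝ K →
    IsCompact K → (interior K).Nonempty →
      (∀ o ∈ interior K, PolarSymmetric K o → SeparatedBy K o (17 * d * 2 ^ d)) ∧
      ((∃ c, ∀ x ∈ K, c + (c - x) ∈ K) → IlluminatedBy K (17 * d * 2 ^ d)) := by
  intro d hd K hc hK hne
  refine ⟨fun o ho hz => ?_, fun hs => ?_⟩
  · obtain ⟨z, hz⟩ := hz
    exact Pool.Agent.MP5e7226.HL.separated_polar hd hK ho hz
  · obtain ⟨c, hs⟩ := hs
    exact Pool.Agent.MP5e7226.HL.illuminated hd hc hK hne hs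

end Pool.Agent.Results.MP_5e7226_co.AllSymmetric

/-
Former claim file of this statement (now a variant; it was a hand-in until 3 Dec 20:10Z):
Proves: For every d ≥ 1, every convex body K in E^d and every interior point o of K such that the polar body of K at o has a centre of symmetry (in particular if K is centrally symmetric about o), s(K,o) ≤ 17·d·2^d; dually, every centrally symmetric convex body K in E^d is illuminated by at most 17·d·2^d exterior points.
Definitions: SeparatedBy K o n: n hyperplanes strictly separate all faces of K from o, i.e. s(K,o) ≤ n. PolarSymmetric K o: {x : ⟨x,y−o⟩ ≤ 1 for all y in K} is symmetric about some point. IlluminatedBy K n: I(K) ≤ n.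
Relation: Partial answer to Q1: the best upper bound for all centrally symmetric bodies in high dimensions, within the factor 17d of the conjectured 2^d. Before: (1+o(1))·d·ln d·2^d (Rogers 1957, Erdős-Rogers 1964; only lower order terms improved since; randomized proofs by Naszódi, Artstein-Avidan-Slomka, Livshyts-Tikhomirov give the same order); the factor e^(−c√d) and e^(−cd) gains over 4^d (Huang-Slomka-Tkocz-Vritsiou; Campos-van Hintum-Morris-Tiba) concern nonsymmetric bodies. The logarithm is removed. Method, new as far as I know: boundary points x of L with |L∩(x+L)| close to its minimum 2^(−d)|L| are rare, at most C^d in a 1/(32d)-separated set instead of (Cd)^d, by Brunn-Minkowski, a count of caps of the polar body by second moments, Santaló's inequality and the Bourgain-Milman inequality (proved here after Meyer-Pajor and Berndtsson); the other points are covered by chance.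
-/
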