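import Pool.Agent.Lib.MP_5e7226_co.CubBody
import Pool.Agent.Lib.MP_5e7226_co.CubCross
import Pool.Agent.Lib.MP_5e7226_co.CubNum

/-!
# Centrally symmetric bodies without almost cubic images satisfy `s(K, o) ≤ 2^d - 1`

Let `K` be a convex body in `E^d`, symmetric about its interior point `o`. If no linear image of
`K - o` in dimension `n` lies between `(1 - τ) [-1, 1]^n` and `[-1, 1]^n`, then
`s(K, o) ≤ 8 d ln(9 d) 2^d (1 - τ / 2^n)^(d / (n - 1)) + 1`. In large dimension a centrally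
symmetric counterexample has almost cubic images of dimension `(1 - ε) log₂ d`, and there is no
counterexample at distance `≤ √((1 - ε) log₂ d)` from an ellipsoid.

Idea of the proof (with `N` = support function of `K - o`, a norm): the faces of `K` correspond to
the unit sphere of `N`, and a hyperplane with normal `w` serves all `x` with
`N (x - w / 2) < 1`. If for a finite net of the sphere every `w` serves less than a fraction `V`,
the random sum `b = ± x / 2 + (1 - 1/d) u / 2` of a random point `x` of the net and a random point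
`u` of the ball has density at most `2 V (2 / (1 - 1/d))^d`; iterate `n - 1` times. If all `2^(n-1)`
points `± x₁ / 2 ± x₂ / 4 ...` have norm `> 1 - η`, the vectors `u, x₁, ..., x_(n-1)` span an almost
isometric copy of `ℓ₁^n`, which is an almost cubic image of `K - o`. Otherwise some random point
falls into the ball of radius `1 - η` for all choices, and comparing volumes bounds `V` from below.
A greedy choice of hyperplanes ends the proof.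
-/

set_option autoImplicit false

open Filter Topology
open scoped InnerProductSpace

namespace Pool.Agent.Results.MP_5e7226_co.CubicImages

/-- `K` is a convex body in `E^d`, centrally symmetric about its interior point `o`. -/
def SymmetricBody {d : ℕ} (K : Set (EuclideanSpace ℝ (Fin d)))
    (o : EuclideanSpace ℝ (Fin d)) : Prop :=
  Convex ℝ K ∧ IsCompact K ∧ o ∈ interior K ∧ ∀ x ∈ K, (2 : ℝ) • o - x ∈ K

/-- `s(K, o) ≤ r`: for some natural number `n ≤ r`, some `n` hyperplanes strictly separate every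
face of `K` from `o`. A face is `{x ∈ K | ⟨u, x⟩ = ⟨u, x₀⟩}` where `u ≠ 0` and `x₀ ∈ K` maximizes
`⟨u, ·⟩` on `K`; the hyperplanes are `{x | ⟨w i, x⟩ = b i}`. -/
def SepLE {d : ℕ} (K : Set (EuclideanSpace ℝ (Fin d))) (o : EuclideanSpace ℝ (Fin d))
    (r : ℝ) : Prop :=
  ∃ n : ℕ, (n : ℝ) ≤ r ∧ ∃ (w : Fin n → EuclideanSpace ℝ (Fin d)) (b : Fin n → ℝ),
    ∀ u x₀ : EuclideanSpace ℝ (Fin d), u ≠ 0 → x₀ ∈ K →
      (∀ y ∈ K, ⟪u, y⟫_ℝ ≤ ⟪u, x₀⟫_ℝ) →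
        ∃ i, ⟪w i, o⟫_ℝ < b i ∧ ∀ x ∈ K, ⟪u, x⟫_ℝ = ⟪u, x₀⟫_ℝ → b i < ⟪w i, x⟫_ℝ

/-- Some linear image of `K - o` in `ℝ^n` lies between `(1 - τ) [-1, 1]^n` and `[-1, 1]^n`. -/
def CubicImage {d : ℕ} (K : Set (EuclideanSpace ℝ (Fin d))) (o : EuclideanSpace ℝ (Fin d))
    (n : ℕ) (τ : ℝ) : Prop :=
  ∃ T : EuclideanSpace ℝ (Fin d) →ₗ[ℝ] (Fin n → ℝ),
    (∀ x ∈ K, ∀ i, |T (x - o) i| ≤ 1) ∧
    ∀ t : Fin n → ℝ, (∀ i, |t i| ≤ 1 - τ) → ∃ x ∈ K, T (x - o) = t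

/-- `K - o` lies between an ellipsoid `A(B)` and `D A(B)`, `B` the unit ball. -/
def NearEllipsoid {d : ℕ} (K : Set (EuclideanSpace ℝ (Fin d))) (o : EuclideanSpace ℝ (Fin d))
    (D : ℝ) : Prop :=
  ∃ A : EuclideanSpace ℝ (Fin d) →ₗ[ℝ] EuclideanSpace ℝ (Fin d),
    (∀ b, ‖b‖ ≤ 1 → o + A b ∈ K) ∧ ∀ x ∈ K, ∃ b, ‖b‖ ≤ 1 ∧ x = o + D • A b

theorem result :
    (∀ d n : ℕ, 2 ≤ d → 2 ≤ n → 2 * n ≤ d + 2 → ∀ τ : ℝ, 0 < τ → τ < 1 →
      ∀ (K : Set (EuclideanSpace ℝ (Fin d))) (o : EuclideanSpace ℝ (Fin d)),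
        SymmetricBody K o → ¬ CubicImage K o n τ →
          SepLE K o (8 * d * Real.log (9 * d) * 2 ^ d *
            (1 - τ / 2 ^ n) ^ ((d : ℝ) / ((n : ℝ) - 1)) + 1)) ∧
    (∀ ε : ℝ, 0 < ε → ε < 1 → ∃ d₀ : ℕ, ∀ d ≥ d₀,
      ∀ (K : Set (EuclideanSpace ℝ (Fin d))) (o : EuclideanSpace ℝ (Fin d)),
        SymmetricBody K o →
          CubicImage K o ⌊(1 - ε) * Real.logb 2 d⌋₊ ((d : ℝ) ^ (-(ε / 2))) ∨
          SepLE K o (2 ^ d * Real.exp (-(d : ℝ) ^ (ε / 3)))) ∧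
    (∀ ε : ℝ, 0 < ε → ε < 1 → ∃ d₀ : ℕ, ∀ d ≥ d₀,
      ∀ (K : Set (EuclideanSpace ℝ (Fin d))) (o : EuclideanSpace ℝ (Fin d)),
        SymmetricBody K o → ∀ D : ℝ, D ^ 2 ≤ (1 - ε) * Real.logb 2 d → NearEllipsoid K o D →
          SepLE K o (2 ^ d * Real.exp (-(d : ℝ) ^ (ε / 6)))) ∧
    (∀ d n : ℕ, 1 ≤ d → ∀ τ : ℝ, n * τ < 1 →
      CubicImage {x : EuclideanSpace ℝ (Fin d) | ∑ i, |x i| ≤ 1} 0 n τ → 2 ^ n ≤ 2 * d) := by
  have h1 : ∀ d n : ℕ, 2 ≤ d → 2 ≤ n → 2 * n ≤ d + 2 → ∀ τ : ℝ, 0 < τ → τ < 1 →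
      ∀ (K : Set (EuclideanSpace ℝ (Fin d))) (o : EuclideanSpace ℝ (Fin d)),
        SymmetricBody K o → ¬ CubicImage K o n τ →
          SepLE K o (8 * d * Real.log (9 * d) * 2 ^ d *
            (1 - τ / 2 ^ n) ^ ((d : ℝ) / ((n : ℝ) - 1)) + 1) := by
    intro d n hd hn hnd τ hτ0 hτ1 K o hK hno
    obtain ⟨hKc, hKk, ho, hsym⟩ := hK
    rcases Lib.MP_5e7226_co.Cub.body hd hn hnd hτ0 hτ1 hKc hKk ho hsym with h | ⟨k, w, b, hk, hw⟩
    · exact absurd h hno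
    · exact ⟨k, hk, w, b, hw⟩
  have h2 : ∀ ε : ℝ, 0 < ε → ε < 1 → ∃ d₀ : ℕ, ∀ d ≥ d₀,
      ∀ (K : Set (EuclideanSpace ℝ (Fin d))) (o : EuclideanSpace ℝ (Fin d)),
        SymmetricBody K o →
          CubicImage K o ⌊(1 - ε) * Real.logb 2 d⌋₊ ((d : ℝ) ^ (-(ε / 2))) ∨
          SepLE K o (2 ^ d * Real.exp (-(d : ℝ) ^ (ε / 3))) := by
    intro ε hε0 hε1
    obtain ⟨d₀, hd₀⟩ := eventually_atTop.1 (Lib.MP_5e7226_co.Cub.num2 hε0 hε1)
    refine ⟨d₀, fun d hd K o hK => ?_⟩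
    obtain ⟨g1, g2, g3, g4, g5⟩ := hd₀ d hd
    by_cases hc : CubicImage K o ⌊(1 - ε) * Real.logb 2 d⌋₊ ((d : ℝ) ^ (-(ε / 2)))
    · exact Or.inl hc
    · right
      have hd0 : (0 : ℝ) < d := by
        have : 0 < d := by omega
        exact_mod_cast this
      obtain ⟨k, hk, hw⟩ := h1 d _ g1 g2 g3 _ (by positivity) g4 K o hK hc
      exact ⟨k, hk.trans g5, hw⟩
  refine ⟨h1, h2, fun ε hε0 hε1 => ?_, fun d n hd τ hτ hC => ?_⟩
  swap
  · obtain ⟨T, hT1, hT2⟩ := hC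
    refine Lib.MP_5e7226_co.Cub.cross hd hτ T (fun x hx i => ?_) (fun t ht => ?_)
    · simpa using hT1 x hx i
    · obtain ⟨x, hx, hxt⟩ := hT2 t ht
      exact ⟨x, hx, by simpa using hxt⟩
  obtain ⟨d₀, hd₀⟩ := h2 (ε / 2) (by linarith) (by linarith)
  obtain ⟨d₁, hd₁⟩ := eventually_atTop.1 (Lib.MP_5e7226_co.Cub.num3 hε0 hε1)
  obtain ⟨d₂, hd₂⟩ := eventually_atTop.1
    (Lib.MP_5e7226_co.Cub.num2 (ε := ε / 2) (by linarith) (by linarith))
  refine ⟨max d₀ (max d₁ d₂), fun d hd K o hK D hD hE => ?_⟩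
  have e1 : ε / 2 / 2 = ε / 4 := by ring
  have e2 : ε / 2 / 3 = ε / 6 := by ring
  have g := hd₀ d (le_trans (le_max_left _ _) hd) K o hK
  have g' := hd₁ d (le_trans ((le_max_left _ _).trans (le_max_right _ _)) hd)
  obtain ⟨k1, -, -, k4, -⟩ := hd₂ d (le_trans ((le_max_right _ _).trans (le_max_right _ _)) hd)
  rw [e1, e2] at g
  rw [e1] at k4
  rcases g with ⟨T, hT1, hT2⟩ | g
  · exfalso
    obtain ⟨A, hA1, hA2⟩ := hE
    have hd0 : (0 : ℝ) < d := by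
      have : 0 < d := by omega
      exact_mod_cast this
    have := Lib.MP_5e7226_co.Cub.ellipsoid A hA1 hA2 (by positivity) k4.le T hT1 hT2
    linarith
  · exact g

end Pool.Agent.Results.MP_5e7226_co.CubicImages
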