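import Pool.Agent.Lib.MP_5e7226_co.TH.Z3

/-!
# Centrally symmetric bodies without flat directions, or with enough symmetries

Let `K` be a convex body in `E^d`, symmetric about its interior point `o`, let `P` be the polar body
of `K - o` and let `h` be the support function of `K - o` (a norm with unit ball `P`). We prove
`s(K, o) ≤ 2^(d - 1)` for all `d ≥ 200` unless `P` has flat directions at many points:

* the thickness `T` of `(K, o)`, the mean of `⟨∇h(u), v⟩²` over `u, v ∈ P`, is at least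
  `10^(-9) / (ln d)^4`, and
* `|⟨∇h(u), v⟩| ≥ 1 / 4` with probability at least `d^(-15) / 3` over `u, v ∈ P`.

In particular there is no counterexample if the mean of `⟨x - o, v⟩²` over `v ∈ P` is at most
`1 / (2000 ln d)²` for all `x ∈ K`: if `P` is isotropic and its inradius is at least `2000 ln d`
times its standard deviation (the least possible inradius of an isotropic symmetric body is one
standard deviation). No symmetries are needed.

If every subspace invariant under the linear symmetries of `K - o` has dimension at least `r`, this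
holds if the distance from `K - o` to the ellipsoids is at most `√r / (2000 ln d)` (by John's theorem
it is always at most `√d`); for unconditional `K - o` if it is at most `c √d / (ln d)^4`.

Idea of the proof. The faces of `K` correspond to the unit sphere of `h`, and a hyperplane with
normal `w` serves all `x` with `h(x - w / 2) < 1`. If for a finite net `I` of the sphere every `w`
serves at most a fraction `2^(-d) C` of `I` (tight sets), then `x / 2 + u / 2` has a density `≤ C`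
times the uniform density, `x ∈ I` and `u ∈ P` random. Hence linear functionals have on `I` the same
tails as on `P` up to `log C`, and `h(x + u) ≥ 2 - 2 log C / d` for most `x ∈ I`, `u ∈ P`. So
`⟨∇h(w), x⟩ ≥ 1 / 2` for `w = u + t x`, `t ≈ 4 log C / d`, and the distribution of `w` has a density
`≤ C^4`; also, `h(u + t x) > 1` has probability at most `C' t d` times the mean of `|⟨∇h(u), x⟩|`.
If `K` has enough symmetries, the invariant quadratic forms (the means of `⟨·, v⟩²` and of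
`ω(u) ⟨∇h(u), ·⟩²`, `ω` an invariant weight) cannot be large in the same few directions.
-/

set_option autoImplicit false

open Filter Topology MeasureTheory Module
open scoped InnerProductSpace

namespace Pool.Agent.Results.MP_5e7226_co.EnoughSymmetries

/-- `K` is a convex body in `E^d`, centrally symmetric about its interior point `o`. -/
def SymmetricBody {d : ℕ} (K : Set (EuclideanSpace ℝ (Fin d)))
    (o : EuclideanSpace ℝ (Fin d)) : Prop :=
  Convex ℝ K ∧ IsCompact K ∧ o ∈ interior K ∧ ∀ x ∈ K, (2 : ℝ) • o - x ∈ K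

/-- `s(K, o) ≤ r`: for some natural number `n ≤ r`, some `n` hyperplanes strictly separate every
face of `K` from `o`. A face is `{x ∈ K | ⟨u, x⟩ = ⟨u, x₀⟩}` where `u ≠ 0` and `x₀ ∈ K` maximizes
`⟨u, ·⟩` on `K`; the hyperplanes are `{x | ⟨w i, x⟩ = b i}`. -/
def SepLE {d : ℕ} (K : Set (EuclideanSpace ℝ (Fin d))) (o : EuclideanSpace ℝ (Fin d))
    (r : ℝ) : Prop :=
  ∃ n : ℕ, (n : ℝ) ≤ r ∧ ∃ (w : Fin n → EuclideanSpace ℝ (Fin d)) (b : Fin n → ℝ),
    ∀ u x₀ : EuclideanSpace ℝ (Fin d), u ≠ 0 → x₀ ∈ K →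
      (∀ y ∈ K, ⟪u, y⟫_ℝ ≤ ⟪u, x₀⟫_ℝ) →
        ∃ i, ⟪w i, o⟫_ℝ < b i ∧ ∀ x ∈ K, ⟪u, x⟫_ℝ = ⟪u, x₀⟫_ℝ → b i < ⟪w i, x⟫_ℝ

/-- The polar body `P` of `K - o`. -/
def polarSet {d : ℕ} (K : Set (EuclideanSpace ℝ (Fin d))) (o : EuclideanSpace ℝ (Fin d)) :
    Set (EuclideanSpace ℝ (Fin d)) :=
  {v | ∀ x ∈ K, ⟪v, x - o⟫_ℝ ≤ 1}

/-- The support function `h` of `K - o`. -/
noncomputable def supp {d : ℕ} (K : Set (EuclideanSpace ℝ (Fin d)))
    (o v : EuclideanSpace ℝ (Fin d)) : ℝ :=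
  sSup ((fun x => ⟪v, x - o⟫_ℝ) '' K)

/-- The thickness `T` of `(K, o)`: the mean over `u, v ∈ P` of the square of the derivative of `h`
at `u` in the direction `v`. -/
noncomputable def thickness {d : ℕ} (K : Set (EuclideanSpace ℝ (Fin d)))
    (o : EuclideanSpace ℝ (Fin d)) : ℝ :=
  ⨍ u in polarSet K o, ⨍ v in polarSet K o, (fderiv ℝ (supp K o) u v) ^ 2

/-- For some linear map `A`, `K - o` lies in the ellipsoid with support function `|A v|`, and the
mean of `|A v|²` over `P` is at most `Q`. -/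
def OuterMean {d : ℕ} (K : Set (EuclideanSpace ℝ (Fin d))) (o : EuclideanSpace ℝ (Fin d))
    (Q : ℝ) : Prop :=
  ∃ A : EuclideanSpace ℝ (Fin d) →ₗ[ℝ] EuclideanSpace ℝ (Fin d),
    (∀ x ∈ K, ∀ v, ⟪v, x - o⟫_ℝ ≤ ‖A v‖) ∧ ⨍ v in polarSet K o, ‖A v‖ ^ 2 ≤ Q

/-- `K - o` lies between an ellipsoid `A(B)` and `D A(B)`, `B` the unit ball. -/
def NearEllipsoid {d : ℕ} (K : Set (EuclideanSpace ℝ (Fin d))) (o : EuclideanSpace ℝ (Fin d))
    (D : ℝ) : Prop :=
  ∃ A : EuclideanSpace ℝ (Fin d) →ₗ[ℝ] EuclideanSpace ℝ (Fin d),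
    (∀ b, ‖b‖ ≤ 1 → o + A b ∈ K) ∧ ∀ x ∈ K, ∃ b, ‖b‖ ≤ 1 ∧ x = o + D • A b

/-- Every nonzero linear subspace of `E^d` which is invariant under all linear symmetries of
`K - o` has dimension at least `r`. -/
def InvariantDim {d : ℕ} (K : Set (EuclideanSpace ℝ (Fin d))) (o : EuclideanSpace ℝ (Fin d))
    (r : ℕ) : Prop :=
  ∀ V : Submodule ℝ (EuclideanSpace ℝ (Fin d)), V ≠ ⊥ →
    (∀ g : EuclideanSpace ℝ (Fin d) ≃ₗ[ℝ] EuclideanSpace ℝ (Fin d),
      (∀ x, o + x ∈ K ↔ o + g x ∈ K) → ∀ v ∈ V, g v ∈ V) → r ≤ finrank ℝ V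

/-- `K - o` is unconditional: for some basis, it does not change if the sign of one coordinate is
changed. -/
def Unconditional {d : ℕ} (K : Set (EuclideanSpace ℝ (Fin d)))
    (o : EuclideanSpace ℝ (Fin d)) : Prop :=
  ∃ b : Basis (Fin d) ℝ (EuclideanSpace ℝ (Fin d)),
    ∀ i x, o + x ∈ K → o + (x - (2 * b.coord i x) • b i) ∈ K

/-- `Θ`: the probability, over `u, v ∈ P`, that the derivative of `h` at `u` in the direction `v` is
at least `1 / 4` in absolute value. -/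
noncomputable def bigDerivative {d : ℕ} (K : Set (EuclideanSpace ℝ (Fin d)))
    (o : EuclideanSpace ℝ (Fin d)) : ℝ :=
  ⨍ u in polarSet K o, ⨍ v in polarSet K o,
    {v | 1 / 4 ≤ |fderiv ℝ (supp K o) u v|}.indicator (fun _ => (1 : ℝ)) v

theorem result :
    -- small thickness
    (∀ d : ℕ, 2 ≤ d → ∀ (K : Set (EuclideanSpace ℝ (Fin d))) (o : EuclideanSpace ℝ (Fin d)),
      SymmetricBody K o → ∀ L : ℝ, 2 * L + 1 ≤ d → 9 * 10 ^ 6 * L ^ 4 * thickness K o < 1 →
        SepLE K o (32 * d * Real.log (9 * d) * 2 ^ d * Real.exp (-L) + 1)) ∧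
    (∀ d : ℕ, 200 ≤ d → ∀ (K : Set (EuclideanSpace ℝ (Fin d))) (o : EuclideanSpace ℝ (Fin d)),
      SymmetricBody K o → 10 ^ 9 * Real.log d ^ 4 * thickness K o < 1 →
        SepLE K o (2 ^ (d - 1))) ∧
    -- few large derivatives
    (∀ d : ℕ, 2 ≤ d → ∀ (K : Set (EuclideanSpace ℝ (Fin d))) (o : EuclideanSpace ℝ (Fin d)),
      SymmetricBody K o → ∀ L : ℝ, 4 * L + 2 ≤ d → 3 * Real.exp (5 * L) * bigDerivative K o < 1 →
        SepLE K o (32 * d * Real.log (9 * d) * 2 ^ d * Real.exp (-L) + 1)) ∧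
    (∀ d : ℕ, 200 ≤ d → ∀ (K : Set (EuclideanSpace ℝ (Fin d))) (o : EuclideanSpace ℝ (Fin d)),
      SymmetricBody K o → 3 * d ^ 15 * bigDerivative K o < 1 → SepLE K o (2 ^ (d - 1))) ∧
    -- no flat directions
    (∀ d : ℕ, 2 ≤ d → ∀ (K : Set (EuclideanSpace ℝ (Fin d))) (o : EuclideanSpace ℝ (Fin d)),
      SymmetricBody K o → ∀ S : ℝ, (∀ x ∈ K, ⨍ v in polarSet K o, ⟪v, x - o⟫_ℝ ^ 2 ≤ S) →
        (∀ L : ℝ, 0 ≤ L → 4 * L + 2 ≤ d → 128 ^ 2 * (5 * L + 2) ^ 2 * S ≤ 1 →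
          SepLE K o (32 * d * Real.log (9 * d) * 2 ^ d * Real.exp (-L) + 1)) ∧
        (200 ≤ d → (2000 * Real.log d) ^ 2 * S ≤ 1 → SepLE K o (2 ^ (d - 1)))) ∧
    -- many symmetries
    (∀ d : ℕ, 2 ≤ d → ∀ (K : Set (EuclideanSpace ℝ (Fin d))) (o : EuclideanSpace ℝ (Fin d)),
      SymmetricBody K o → ∀ r : ℕ, 0 < r → InvariantDim K o r → ∀ Q : ℝ, OuterMean K o Q →
        (∀ L : ℝ, 0 ≤ L → 4 * L + 2 ≤ d → 128 ^ 2 * (5 * L + 2) ^ 2 * Q ≤ r →
          SepLE K o (32 * d * Real.log (9 * d) * 2 ^ d * Real.exp (-L) + 1)) ∧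
        (200 ≤ d → (2000 * Real.log d) ^ 2 * Q ≤ r → SepLE K o (2 ^ (d - 1)))) ∧
    -- unconditional bodies
    (∀ d : ℕ, 200 ≤ d → ∀ (K : Set (EuclideanSpace ℝ (Fin d))) (o : EuclideanSpace ℝ (Fin d)),
      SymmetricBody K o → Unconditional K o → ∀ Q : ℝ, OuterMean K o Q →
        d * thickness K o ^ 2 ≤ 72 * Q ∧
        (10 ^ 20 * Real.log d ^ 8 * Q < d → SepLE K o (2 ^ (d - 1)))) ∧
    -- bodies between two homothetic ellipsoids
    (∀ d : ℕ, ∀ (K : Set (EuclideanSpace ℝ (Fin d))) (o : EuclideanSpace ℝ (Fin d)),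
      SymmetricBody K o → ∀ D : ℝ, NearEllipsoid K o D → OuterMean K o (D ^ 2)) := by
  -- from a general bound to `2 ^ (d - 1)`
  have hpow : ∀ d : ℕ, 200 ≤ d → ∀ (K : Set (EuclideanSpace ℝ (Fin d)))
      (o : EuclideanSpace ℝ (Fin d)),
      SepLE K o (32 * d * Real.log (9 * d) * 2 ^ d * Real.exp (-(3 * Real.log d)) + 1) →
        SepLE K o (2 ^ (d - 1)) := by
    intro d hd K o h
    obtain ⟨k, hk, h⟩ := h
    refine ⟨k, hk.trans ((Lib.MP_5e7226_co.TH.num hd).2.trans (le_of_eq ?_)), h⟩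
    have h2 : (2 : ℝ) ^ d = 2 ^ (d - 1) * 2 := by
      rw [← pow_succ]
      congr 1
      omega
    rw [h2]
    ring
  have hhalf : ∀ d : ℕ, 200 ≤ d → ∀ (K : Set (EuclideanSpace ℝ (Fin d)))
      (o : EuclideanSpace ℝ (Fin d)),
      SymmetricBody K o → 10 ^ 9 * Real.log d ^ 4 * thickness K o < 1 →
        SepLE K o (2 ^ (d - 1)) := by
    intro d hd K o hK hT
    obtain ⟨hKc, hKk, ho, hsym⟩ := hK
    obtain ⟨k, hk, h⟩ := Lib.MP_5e7226_co.TH.body_half hd hKk ho hsym hT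
      Lib.MP_5e7226_co.TH.thick_nonneg
    refine ⟨k, ?_, h⟩
    have h2 : (2 : ℝ) ^ d = 2 ^ (d - 1) * 2 := by
      rw [← pow_succ]
      congr 1
      omega
    rw [h2] at hk
    linarith
  have htheta : ∀ d : ℕ, 2 ≤ d → ∀ (K : Set (EuclideanSpace ℝ (Fin d)))
      (o : EuclideanSpace ℝ (Fin d)),
      SymmetricBody K o → ∀ L : ℝ, 4 * L + 2 ≤ d → 3 * Real.exp (5 * L) * bigDerivative K o < 1 →
        SepLE K o (32 * d * Real.log (9 * d) * 2 ^ d * Real.exp (-L) + 1) := by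
    intro d hd K o hK L hL hT
    obtain ⟨hKc, hKk, ho, hsym⟩ := hK
    obtain ⟨k, hk, h⟩ := Lib.MP_5e7226_co.TH.body_theta hd hKk ho hsym hL hT
    exact ⟨k, hk, h⟩
  refine ⟨?_, hhalf, htheta, ?_, ?_, ?_, ?_, ?_⟩
  · intro d hd K o hK L hL hT
    obtain ⟨hKc, hKk, ho, hsym⟩ := hK
    obtain ⟨k, hk, h⟩ := Lib.MP_5e7226_co.TH.body_thick hd hKk ho hsym hL (by
      have h1 : (9 : ℝ) * 10 ^ 6 * L ^ 4 * thickness K o =
        9000000 * L ^ 4 * Lib.MP_5e7226_co.TH.thick K o := by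
        have : thickness K o = Lib.MP_5e7226_co.TH.thick K o := rfl
        rw [this]
        norm_num
      rwa [h1] at hT)
    exact ⟨k, hk, h⟩
  · intro d hd K o hK hT
    obtain ⟨h1, h2, h3, h4⟩ := Lib.MP_5e7226_co.TH.num3 hd
    exact hpow d hd K o (htheta d (by omega) K o hK _ h1 (by rw [h4]; exact hT))
  · intro d hd K o hK S hS
    have key : ∀ L : ℝ, 0 ≤ L → 4 * L + 2 ≤ d → 128 ^ 2 * (5 * L + 2) ^ 2 * S ≤ 1 →
        SepLE K o (32 * d * Real.log (9 * d) * 2 ^ d * Real.exp (-L) + 1) := by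
      intro L hL0 hL hLS
      obtain ⟨hKc, hKk, ho, hsym⟩ := hK
      obtain ⟨s, hs0, hs1, hs2⟩ := Lib.MP_5e7226_co.TH.exists_s (by linarith) hLS
      obtain ⟨k, hk, h⟩ := Lib.MP_5e7226_co.TH.body_flat2 hd hKc hKk ho hsym hL hs0 hs2
        fun x hx => (hS x hx).trans hs1
      exact ⟨k, hk, h⟩
    refine ⟨key, fun hd200 hSd => ?_⟩
    obtain ⟨h1, h2, h3, h4⟩ := Lib.MP_5e7226_co.TH.num3 hd200
    have hS0 : 0 ≤ S := by
      obtain ⟨hKc, hKk, ho, hsym⟩ := hK
      refine le_trans ?_ (hS o (interior_subset ho))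
      simp
    have hlog : 0 ≤ Real.log d := Real.log_nonneg (by
      have : 1 ≤ d := by omega
      exact_mod_cast this)
    refine hpow d hd200 K o (key _ (by linarith) h1 (le_trans ?_ hSd))
    rw [← mul_pow]
    exact mul_le_mul_of_nonneg_right (pow_le_pow_left₀ (by positivity) h2 2) hS0
  · intro d hd K o hK r hr0 hr Q hQ
    have hr1 : (0 : ℝ) < r := by exact_mod_cast hr0
    have key : ∀ L : ℝ, 0 ≤ L → 4 * L + 2 ≤ d → 128 ^ 2 * (5 * L + 2) ^ 2 * Q ≤ r →
        SepLE K o (32 * d * Real.log (9 * d) * 2 ^ d * Real.exp (-L) + 1) := by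
      intro L hL0 hL hLQ
      obtain ⟨hKc, hKk, ho, hsym⟩ := hK
      obtain ⟨A, hA, hAQ⟩ := hQ
      obtain ⟨s, hs0, hs1, hs2⟩ := Lib.MP_5e7226_co.TH.exists_s (S := Q / r) (L := L)
        (by linarith) (by
          rw [← mul_div_assoc, div_le_one hr1]
          exact hLQ)
      rw [div_le_iff₀ hr1] at hs1
      obtain ⟨k, hk, h⟩ := Lib.MP_5e7226_co.TH.body_sym2 hd hKk ho hsym hr0 hr A hA hL hs0 hs2
        (hAQ.trans hs1)
      exact ⟨k, hk, h⟩
    refine ⟨key, fun hd200 hQd => ?_⟩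
    obtain ⟨h1, h2, h3, h4⟩ := Lib.MP_5e7226_co.TH.num3 hd200
    have hQ0 : 0 ≤ Q := by
      obtain ⟨A, hA, hAQ⟩ := hQ
      refine le_trans ?_ hAQ
      rw [setAverage_eq]
      exact smul_nonneg (by positivity) (integral_nonneg fun v => sq_nonneg _)
    have hlog : 0 ≤ Real.log d := Real.log_nonneg (by
      have : 1 ≤ d := by omega
      exact_mod_cast this)
    refine hpow d hd200 K o (key _ (by linarith) h1 (le_trans ?_ hQd))
    rw [← mul_pow]
    exact mul_le_mul_of_nonneg_right (pow_le_pow_left₀ (by positivity) h2 2) hQ0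
  · intro d hd K o hK hU Q hQ
    have hK' := hK
    obtain ⟨hKc, hKk, ho, hsym⟩ := hK'
    obtain ⟨A, hA, hAQ⟩ := hQ
    obtain ⟨b, hb⟩ := hU
    have h1 : thickness K o ^ 2 * d ≤ 72 * Q :=
      (Lib.MP_5e7226_co.TH.body_unc (by omega) hKk ho hsym b hb A hA).trans
        (mul_le_mul_of_nonneg_left hAQ (by norm_num))
    refine ⟨by linarith, fun hlt => hhalf d hd K o hK ?_⟩
    have hd1 : (0 : ℝ) < d := by
      have : 0 < d := by omega
      exact_mod_cast this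
    by_contra hcon
    push Not at hcon
    set l := Real.log d ^ 4 with hl
    have hl0 : 0 ≤ l := by positivity
    have hl8 : Real.log d ^ 8 = l ^ 2 := by
      rw [hl]
      ring
    rw [hl8] at hlt
    have h2 : (1 : ℝ) ≤ (10 ^ 9 * l * thickness K o) ^ 2 := one_le_pow₀ hcon
    have h3 : (10 ^ 9 * l * thickness K o) ^ 2 = 10 ^ 18 * l ^ 2 * thickness K o ^ 2 := by ring
    rw [h3] at h2
    have h4 : 1 * (d : ℝ) ≤ 10 ^ 18 * l ^ 2 * thickness K o ^ 2 * d :=
      mul_le_mul_of_nonneg_right h2 hd1.le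
    have h5 : 10 ^ 18 * l ^ 2 * (thickness K o ^ 2 * d) ≤ 10 ^ 18 * l ^ 2 * (72 * Q) :=
      mul_le_mul_of_nonneg_left h1 (by positivity)
    have h6 : 10 ^ 18 * l ^ 2 * thickness K o ^ 2 * d =
      10 ^ 18 * l ^ 2 * (thickness K o ^ 2 * d) := by ring
    rw [h6] at h4
    have h7 : 10 ^ 18 * l ^ 2 * (72 * Q) = 72 / 100 * (10 ^ 20 * l ^ 2 * Q) := by ring
    linarith
  · intro d K o hK D hD
    obtain ⟨hKc, hKk, ho, hsym⟩ := hK
    obtain ⟨A, hA1, hA2⟩ := hD
    exact Lib.MP_5e7226_co.TH.near_outer hKk ho hsym A hA1 hA2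

end Pool.Agent.Results.MP_5e7226_co.EnoughSymmetries
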