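import Pool.Agent.Lib.MP_5e7226_co.FewFinal

set_option autoImplicit false
open scoped InnerProductSpace

namespace Pool.Agent.Lib.MP_5e7226_co.Variants.FewFaces

/-- The face of `K` with outer normal vector `u`: the points of `K` at which `⟪u, ·⟫` attains its
maximum over `K`. -/
def face {d : ℕ} (K : Set (EuclideanSpace ℝ (Fin d))) (u : EuclideanSpace ℝ (Fin d)) :
    Set (EuclideanSpace ℝ (Fin d)) := {x | x ∈ K ∧ ∀ y ∈ K, ⟪u, y⟫_ℝ ≤ ⟪u, x⟫_ℝ}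

/-- Let `K` be a convex body in `E^d`, `d ≥ 3`, with an interior point `o`, and let `N` faces of `K`
be given such that every face of `K` with more than one point lies in one of them. Then either `K`
is a cross-body centred at `o`, or `max (d + 1) ⌊(N + 2^d - 1) / 2⌋` hyperplanes suffice to strictly
separate every face of `K` from `o`. -/
theorem result {d : ℕ} (hd : 3 ≤ d) (K : Set (EuclideanSpace ℝ (Fin d))) (hconv : Convex ℝ K)
    (hK : IsCompact K) (o : EuclideanSpace ℝ (Fin d)) (ho : o ∈ interior K) {N : ℕ}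
    (n : Fin N → EuclideanSpace ℝ (Fin d)) (hn : ∀ i, n i ≠ 0)
    (hcov : ∀ u : EuclideanSpace ℝ (Fin d), u ≠ 0 →
      (face K u).Subsingleton ∨ ∃ i, face K u ⊆ face K (n i)) :
    (∃ (v : Fin d → EuclideanSpace ℝ (Fin d)) (t : Fin d → ℝ), LinearIndependent ℝ v ∧
      (∀ i, 0 < t i) ∧ K = convexHull ℝ (⋃ i, {o + v i, o - t i • v i})) ∨
    ∃ w : Fin (max (d + 1) ((N + 2 ^ d - 1) / 2)) → EuclideanSpace ℝ (Fin d),
      ∃ b : Fin (max (d + 1) ((N + 2 ^ d - 1) / 2)) → ℝ,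
      ∀ u x₀ : EuclideanSpace ℝ (Fin d), u ≠ 0 → x₀ ∈ K →
        (∀ y ∈ K, ⟪u, y⟫_ℝ ≤ ⟪u, x₀⟫_ℝ) →
          ∃ i, ⟪w i, o⟫_ℝ < b i ∧
            ∀ x ∈ K, ⟪u, x⟫_ℝ = ⟪u, x₀⟫_ℝ → b i < ⟪w i, x⟫_ℝ :=
  Pool.Agent.Lib.MP_5e7226_co.few_faces_final hd K hconv hK o ho n hn hcov

end Pool.Agent.Lib.MP_5e7226_co.Variants.FewFaces
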