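import Pool.Agent.Lib.MP_5e7226_co.FlagFinal

set_option autoImplicit false
open scoped InnerProductSpace

namespace Pool.Agent.Lib.MP_5e7226_co.Variants.NearVertex

/-- Let `K` be a convex polytope with nonempty interior in `E^d`, `v` a vertex of `K` and `ε > 0`.
Then there are a nonempty open set `U` of interior points of `K` at distance less than `ε` from `v`
and `d + 1` hyperplanes which strictly separate every face of `K` from every point `o` of `U`. -/
theorem result {d : ℕ} (S : Finset (EuclideanSpace ℝ (Fin d)))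
    (hS : (interior (convexHull ℝ (S : Set (EuclideanSpace ℝ (Fin d))))).Nonempty)
    (v : EuclideanSpace ℝ (Fin d))
    (hv : v ∈ (convexHull ℝ (S : Set (EuclideanSpace ℝ (Fin d)))).extremePoints ℝ)
    (ε : ℝ) (hε : 0 < ε) :
    ∃ U : Set (EuclideanSpace ℝ (Fin d)), IsOpen U ∧ U.Nonempty ∧
      U ⊆ interior (convexHull ℝ (S : Set (EuclideanSpace ℝ (Fin d)))) ∩ Metric.ball v ε ∧
      ∃ w : Fin (d + 1) → EuclideanSpace ℝ (Fin d), ∃ b : Fin (d + 1) → ℝ, ∀ o ∈ U,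
        ∀ u x₀ : EuclideanSpace ℝ (Fin d), u ≠ 0 →
          x₀ ∈ convexHull ℝ (S : Set (EuclideanSpace ℝ (Fin d))) →
          (∀ y ∈ convexHull ℝ (S : Set (EuclideanSpace ℝ (Fin d))), ⟪u, y⟫_ℝ ≤ ⟪u, x₀⟫_ℝ) →
            ∃ i, ⟪w i, o⟫_ℝ < b i ∧
              ∀ x ∈ convexHull ℝ (S : Set (EuclideanSpace ℝ (Fin d))),
                ⟪u, x⟫_ℝ = ⟪u, x₀⟫_ℝ → b i < ⟪w i, x⟫_ℝ :=
  Pool.Agent.Lib.MP_5e7226_co.flag_open (by simp) S hS v hv ε hε

end Pool.Agent.Lib.MP_5e7226_co.Variants.NearVertex
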