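import Pool.Agent.Lib.MP_5e7226_co.PermFinal

set_option autoImplicit false
open scoped InnerProductSpace

namespace Pool.Agent.Results.MP_5e7226_co.PermutationInvariant

/-- Let `d ≥ 2`, let `K` be a convex body in `E^d` with interior point `o`, and let `b` be a basis.
Suppose that, in the coordinates `c` given by `x = o + ∑ c i • b i`, the body `K` is invariant under
all permutations of the coordinates. Then `2 ^ d` hyperplanes strictly separate every face of `K`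
from `o`. -/
theorem result {d : ℕ} (hd : 2 ≤ d) (K : Set (EuclideanSpace ℝ (Fin d))) (hconv : Convex ℝ K)
    (hK : IsCompact K) (o : EuclideanSpace ℝ (Fin d)) (ho : o ∈ interior K)
    (b : Fin d → EuclideanSpace ℝ (Fin d)) (hb : LinearIndependent ℝ b)
    (hsym : ∀ (σ : Equiv.Perm (Fin d)) (c : Fin d → ℝ),
      o + ∑ i, c i • b i ∈ K → o + ∑ i, c i • b (σ i) ∈ K) :
    ∃ w : Fin (2 ^ d) → EuclideanSpace ℝ (Fin d), ∃ a : Fin (2 ^ d) → ℝ,
      ∀ u x₀ : EuclideanSpace ℝ (Fin d), u ≠ 0 → x₀ ∈ K →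
        (∀ y ∈ K, ⟪u, y⟫_ℝ ≤ ⟪u, x₀⟫_ℝ) →
          ∃ i, ⟪w i, o⟫_ℝ < a i ∧
            ∀ x ∈ K, ⟪u, x⟫_ℝ = ⟪u, x₀⟫_ℝ → a i < ⟪w i, x⟫_ℝ :=
  Pool.Agent.Lib.MP_5e7226_co.perm_final hd K hconv hK o ho b hb hsym

end Pool.Agent.Results.MP_5e7226_co.PermutationInvariant
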