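import Pool.Agent.Lib.MP_5e7226_co.PS.Final

set_option autoImplicit false
open scoped InnerProductSpace

namespace Pool.Agent.Results.MP_5e7226_co.PlanarShadow

/-- Let `K` be a convex body in `E^3`, `o` an interior point of `K` and `Q = {x | ⟪n, x - o⟫ = 0}` a
plane through `o`. Assume that for a direction `v` not parallel to `Q` every line in direction `v`
which meets `K` meets `K ∩ Q`, or that for a point `c ∉ Q` every line through `c` and another point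
of `K` meets `K ∩ Q`. Then `8` planes suffice to strictly separate every face of `K` from `o`. -/
theorem result (K : Set (EuclideanSpace ℝ (Fin 3))) (hconv : Convex ℝ K) (hK : IsCompact K)
    (o : EuclideanSpace ℝ (Fin 3)) (ho : o ∈ interior K) (n : EuclideanSpace ℝ (Fin 3))
    (h : (∃ v : EuclideanSpace ℝ (Fin 3), ⟪n, v⟫_ℝ ≠ 0 ∧
        ∀ x ∈ K, ∃ t : ℝ, x + t • v ∈ K ∧ ⟪n, x + t • v - o⟫_ℝ = 0) ∨
      (∃ c : EuclideanSpace ℝ (Fin 3), ⟪n, c - o⟫_ℝ ≠ 0 ∧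
        ∀ x ∈ K, x ≠ c → ∃ t : ℝ, c + t • (x - c) ∈ K ∧ ⟪n, c + t • (x - c) - o⟫_ℝ = 0)) :
    ∃ w : Fin 8 → EuclideanSpace ℝ (Fin 3), ∃ b : Fin 8 → ℝ,
      ∀ u x₀ : EuclideanSpace ℝ (Fin 3), u ≠ 0 → x₀ ∈ K →
        (∀ y ∈ K, ⟪u, y⟫_ℝ ≤ ⟪u, x₀⟫_ℝ) →
          ∃ i, ⟪w i, o⟫_ℝ < b i ∧
            ∀ x ∈ K, ⟪u, x⟫_ℝ = ⟪u, x₀⟫_ℝ → b i < ⟪w i, x⟫_ℝ :=
  Pool.Agent.Lib.MP_5e7226_co.PS.final K hconv hK o ho n h

end Pool.Agent.Results.MP_5e7226_co.PlanarShadow
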