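import Pool.Agent.Lib.MP_5e7226_co.Final

set_option autoImplicit false
open scoped InnerProductSpace

namespace Pool.Agent.Results.MP_5e7226_co.Rotational

/-- Let `K` be a convex body in `E^d` with an interior point `o`, and suppose that in suitable
linear coordinates `E^d = ℂ^m × ℝ^l` centred at `o` (`m ≥ 1`, `l ≤ 2`) the body is invariant under
multiplication of each complex coordinate by some primitive root of unity of order at least 7.
Then `3 * 2^(d-2)` hyperplanes suffice to strictly separate every face of `K` from `o`. -/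
theorem result {d m l : ℕ} (hm : 1 ≤ m) (hl : l ≤ 2)
    (K : Set (EuclideanSpace ℝ (Fin d))) (hconv : Convex ℝ K) (hK : IsCompact K)
    (o : EuclideanSpace ℝ (Fin d)) (ho : o ∈ interior K)
    (T : EuclideanSpace ℝ (Fin d) ≃ₗ[ℝ] (Fin m → ℂ) × (Fin l → ℝ))
    (p : Fin m → ℕ) (ζ : Fin m → ℂ) (hp : ∀ j, 7 ≤ p j) (hζ : ∀ j, IsPrimitiveRoot (ζ j) (p j))
    (hinv : ∀ j, ∀ x ∈ K,
      o + T.symm (Function.update (T (x - o)).1 j (ζ j * (T (x - o)).1 j), (T (x - o)).2) ∈ K) :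
    ∃ w : Fin (3 * 2 ^ (d - 2)) → EuclideanSpace ℝ (Fin d), ∃ b : Fin (3 * 2 ^ (d - 2)) → ℝ,
      ∀ u x₀ : EuclideanSpace ℝ (Fin d), u ≠ 0 → x₀ ∈ K →
        (∀ y ∈ K, ⟪u, y⟫_ℝ ≤ ⟪u, x₀⟫_ℝ) →
          ∃ i, ⟪w i, o⟫_ℝ < b i ∧
            ∀ x ∈ K, ⟪u, x⟫_ℝ = ⟪u, x₀⟫_ℝ → b i < ⟪w i, x⟫_ℝ :=
  Pool.Agent.Lib.MP_5e7226_co.sep_to_hyperplanes hK o
    (Pool.Agent.Lib.MP_5e7226_co.rotational_sep hm hl K hconv hK o ho T p ζ hp hζ hinv)

end Pool.Agent.Results.MP_5e7226_co.Rotational
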