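import Pool.Agent.Lib.MP_5e7226_co.SimpFinal

set_option autoImplicit false
open scoped InnerProductSpace

namespace Pool.Agent.Lib.MP_5e7226_co.Variants.SimplexSymmetry

/-- Let `K` be a convex body in `E^d` with interior point `o`, and let `v 0, …, v d` be the vertices
of a simplex centred at the origin (they sum to zero and span `E^d`). Suppose that `K` is invariant
under all the affine maps which fix `o` and permute the points `o + v i`. Then `2 ^ d` hyperplanes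
strictly separate every face of `K` from `o`. -/
theorem result {d : ℕ} (K : Set (EuclideanSpace ℝ (Fin d))) (hconv : Convex ℝ K)
    (hK : IsCompact K) (o : EuclideanSpace ℝ (Fin d)) (ho : o ∈ interior K)
    (v : Fin (d + 1) → EuclideanSpace ℝ (Fin d)) (hv : ∑ i, v i = 0)
    (hspan : Submodule.span ℝ (Set.range v) = ⊤)
    (hsym : ∀ (σ : Equiv.Perm (Fin (d + 1))) (c : Fin (d + 1) → ℝ),
      o + ∑ i, c i • v i ∈ K → o + ∑ i, c i • v (σ i) ∈ K) :
    ∃ w : Fin (2 ^ d) → EuclideanSpace ℝ (Fin d), ∃ b : Fin (2 ^ d) → ℝ,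
      ∀ u x₀ : EuclideanSpace ℝ (Fin d), u ≠ 0 → x₀ ∈ K →
        (∀ y ∈ K, ⟪u, y⟫_ℝ ≤ ⟪u, x₀⟫_ℝ) →
          ∃ i, ⟪w i, o⟫_ℝ < b i ∧
            ∀ x ∈ K, ⟪u, x⟫_ℝ = ⟪u, x₀⟫_ℝ → b i < ⟪w i, x⟫_ℝ :=
  Pool.Agent.Lib.MP_5e7226_co.simplex_final K hconv hK o ho v hv hspan hsym

end Pool.Agent.Lib.MP_5e7226_co.Variants.SimplexSymmetry
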