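import Pool.Agent.Lib.MP_5e7226_co.CS.ProjFinal

set_option autoImplicit false
open scoped InnerProductSpace

namespace Pool.Agent.Results.MP_5e7226_co.SymmetricBodiesE3

/-- Let `K` be a convex body in `E^3` with an interior point `o`, and let
`x ↦ o + A (x - o) / (1 + ⟪a, x - o⟫)` be a projective map (`A` linear, the denominator positive on
`K`) which maps `K` onto itself and moves some point of `K`. Then `8` planes suffice to strictly
separate every face of `K` from `o`. The case `a = 0` is that of the affine symmetries of `K` which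
fix `o`. -/
theorem result (K : Set (EuclideanSpace ℝ (Fin 3))) (hK : IsCompact K)
    (o : EuclideanSpace ℝ (Fin 3)) (ho : o ∈ interior K)
    (A : EuclideanSpace ℝ (Fin 3) → EuclideanSpace ℝ (Fin 3)) (hlin : IsLinearMap ℝ A)
    (a : EuclideanSpace ℝ (Fin 3)) (hpos : ∀ x ∈ K, 0 < 1 + ⟪a, x - o⟫_ℝ)
    (hA : (fun x => o + (1 + ⟪a, x - o⟫_ℝ)⁻¹ • A (x - o)) '' K = K)
    (h : ∃ x ∈ K, o + (1 + ⟪a, x - o⟫_ℝ)⁻¹ • A (x - o) ≠ x) :
    ∃ w : Fin 8 → EuclideanSpace ℝ (Fin 3), ∃ b : Fin 8 → ℝ,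
      ∀ u x₀ : EuclideanSpace ℝ (Fin 3), u ≠ 0 → x₀ ∈ K →
        (∀ y ∈ K, ⟪u, y⟫_ℝ ≤ ⟪u, x₀⟫_ℝ) →
          ∃ i, ⟪w i, o⟫_ℝ < b i ∧
            ∀ x ∈ K, ⟪u, x⟫_ℝ = ⟪u, x₀⟫_ℝ → b i < ⟪w i, x⟫_ℝ :=
  Pool.Agent.Lib.MP_5e7226_co.CS.final_proj K hK o ho A hlin a hpos hA h

end Pool.Agent.Results.MP_5e7226_co.SymmetricBodiesE3
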