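import Pool.Agent.Lib.MP_5e7226_co.TypeDFinal

set_option autoImplicit false
open scoped InnerProductSpace

namespace Pool.Agent.Lib.MP_5e7226_co.Variants.TypeD

/-- Let `d ≥ 4`, let `K` be a convex body in `E^d` with interior point `o`, and let `b` be a basis.
Suppose that, in the coordinates `c` given by `x = o + ∑ c i • b i`, the body `K` is invariant under
all permutations of the coordinates combined with an even number of sign changes (the reflection
group of type `D_d`). Then `2 ^ d` hyperplanes strictly separate every face of `K` from `o`. -/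
theorem result {d : ℕ} (hd : 4 ≤ d) (K : Set (EuclideanSpace ℝ (Fin d))) (_hconv : Convex ℝ K)
    (hK : IsCompact K) (o : EuclideanSpace ℝ (Fin d)) (ho : o ∈ interior K)
    (b : Fin d → EuclideanSpace ℝ (Fin d)) (hb : LinearIndependent ℝ b)
    (hsym : ∀ (σ : Equiv.Perm (Fin d)) (s : Fin d → ℝ), (∀ i, s i = 1 ∨ s i = -1) →
      ∏ i, s i = 1 → ∀ c : Fin d → ℝ, o + ∑ i, c i • b i ∈ K →
        o + ∑ i, (s i * c i) • b (σ i) ∈ K) :
    ∃ w : Fin (2 ^ d) → EuclideanSpace ℝ (Fin d), ∃ a : Fin (2 ^ d) → ℝ,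
      ∀ u x₀ : EuclideanSpace ℝ (Fin d), u ≠ 0 → x₀ ∈ K →
        (∀ y ∈ K, ⟪u, y⟫_ℝ ≤ ⟪u, x₀⟫_ℝ) →
          ∃ i, ⟪w i, o⟫_ℝ < a i ∧
            ∀ x ∈ K, ⟪u, x⟫_ℝ = ⟪u, x₀⟫_ℝ → a i < ⟪w i, x⟫_ℝ :=
  Pool.Agent.Lib.MP_5e7226_co.typeD_final hd K hK o ho b hb hsym

end Pool.Agent.Lib.MP_5e7226_co.Variants.TypeD
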