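import Pool.Agent.Lib.MP_5e7226_co.UncC2
import Pool.Agent.Lib.MP_5e7226_co.UncSix

set_option autoImplicit false
open scoped InnerProductSpace

namespace Pool.Agent.Results.MP_5e7226_co.UnconditionalLattice

/-- `s(K, o) ≤ n`: some `n` hyperplanes strictly separate every face of `K` from `o`. -/
def SeparatedBy {d : ℕ} (K : Set (EuclideanSpace ℝ (Fin d))) (o : EuclideanSpace ℝ (Fin d))
    (n : ℕ) : Prop :=
  ∃ w : Fin n → EuclideanSpace ℝ (Fin d), ∃ b : Fin n → ℝ,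
    ∀ u x₀ : EuclideanSpace ℝ (Fin d), u ≠ 0 → x₀ ∈ K →
      (∀ y ∈ K, ⟪u, y⟫_ℝ ≤ ⟪u, x₀⟫_ℝ) →
        ∃ i, ⟪w i, o⟫_ℝ < b i ∧ ∀ x ∈ K, ⟪u, x⟫_ℝ = ⟪u, x₀⟫_ℝ → b i < ⟪w i, x⟫_ℝ

/-- `K` is a cross-body centred at `o`. -/
def IsCrossBody {d : ℕ} (K : Set (EuclideanSpace ℝ (Fin d))) (o : EuclideanSpace ℝ (Fin d)) :
    Prop :=
  ∃ v : Fin d → EuclideanSpace ℝ (Fin d), ∃ t : Fin d → ℝ,
    LinearIndependent ℝ v ∧ (∀ i, 0 < t i) ∧
      K = convexHull ℝ (⋃ i, ({o + v i, o - t i • v i} : Set (EuclideanSpace ℝ (Fin d))))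

/-- `I(L) ≤ n`: some `n` points outside `L` illuminate every boundary point `q` of `L`: the
half-line from one of them through `q` meets the interior of `L` at a point beyond `q`. -/
def IlluminatedBy {d : ℕ} (L : Set (EuclideanSpace ℝ (Fin d))) (n : ℕ) : Prop :=
  ∃ p : Fin n → EuclideanSpace ℝ (Fin d), (∀ i, p i ∉ L) ∧
    ∀ q ∈ frontier L, ∃ i, ∃ s : ℝ, 0 < s ∧ q + s • (q - p i) ∈ interior L

/-- `L` is an affine `d`-cube. -/
def IsAffineCube {d : ℕ} (L : Set (EuclideanSpace ℝ (Fin d))) : Prop :=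
  ∃ p : EuclideanSpace ℝ (Fin d), ∃ v : Fin d → EuclideanSpace ℝ (Fin d),
    LinearIndependent ℝ v ∧ L = {x | ∃ c : Fin d → ℝ, (∀ i, |c i| ≤ 1) ∧ x = p + ∑ i, c i • v i}

/-- Let `b` be a basis of `E^d`, `d ≥ 1`, `o` a point, `𝓕` any family of subsets of `Fin d` which
covers `Fin d`, `K` the set of the points `o + ∑ c i • b i` with `∑_{i ∈ F} |c i| ≤ 1` for all
`F ∈ 𝓕`, and `L` the convex hull of the points `o + ∑ ε i • b i` such that `ε i = ± 1` on a member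
of `𝓕` and `ε i = 0` outside. Then both parts of the conjecture hold for `K` and `o`, and the
illumination conjecture, with its equality case, holds for `L`. -/
theorem result {d : ℕ} (hd : 1 ≤ d) (b : Fin d → EuclideanSpace ℝ (Fin d))
    (hb : LinearIndependent ℝ b) (o : EuclideanSpace ℝ (Fin d)) (𝓕 : Set (Finset (Fin d)))
    (hcov : ∀ i, ∃ F ∈ 𝓕, i ∈ F) (K L : Set (EuclideanSpace ℝ (Fin d)))
    (hK : K = {x | ∃ c : Fin d → ℝ, x = o + ∑ i, c i • b i ∧ ∀ F ∈ 𝓕, ∑ i ∈ F, |c i| ≤ 1})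
    (hL : L = convexHull ℝ {x | ∃ F ∈ 𝓕, ∃ ε : Fin d → ℝ, (∀ i ∈ F, |ε i| = 1) ∧
      (∀ i ∉ F, ε i = 0) ∧ x = o + ∑ i, ε i • b i}) :
    SeparatedBy K o (2 ^ d) ∧ (¬ SeparatedBy K o (2 ^ d - 1) → IsCrossBody K o) ∧
      IlluminatedBy L (2 ^ d) ∧ (¬ IlluminatedBy L (2 ^ d - 1) → IsAffineCube L) := by
  obtain ⟨⟨h1, h2⟩, h3, h4⟩ := Pool.Agent.Lib.MP_5e7226_co.Unc.unc_finalN hd
    (Pool.Agent.Lib.MP_5e7226_co.Unc.code_six (Fin d)) b hb o 𝓕 hcov K L hK hL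
  exact ⟨h1, h2, h3, h4⟩

end Pool.Agent.Results.MP_5e7226_co.UnconditionalLattice
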