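import Pool.Agent.Lib.MP_5e7226_co.UncFinal

set_option autoImplicit false
open scoped InnerProductSpace

namespace Pool.Agent.Results.MP_5e7226_co.UnconditionalPolytopes

/-- Let `b` be a basis of `E^d`, `𝓕` a family of subsets of `Fin d` covering `Fin d`, and
`K = {o + ∑ c i • b i : ∑_{i ∈ F} |c i| ≤ 1 for all F ∈ 𝓕}`. Suppose that for every `W` all of whose
pairs lie in members of `𝓕`: `|W| ≤ 13`, or `|F ∩ W| ≤ 7` for all `F ∈ 𝓕`, or some `Y ⊆ W` satisfies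
`∑_{i ∈ Y} |c i| < 2` on `K` and (`Y = W` or `(|Y|+1) 2^(|F ∩ W|+1) ≤ 2^|Y|` for all `F ∈ 𝓕`).
Then both parts of the conjecture hold for `K` and `o`. -/
theorem result {d : ℕ} (b : Fin d → EuclideanSpace ℝ (Fin d)) (hb : LinearIndependent ℝ b)
    (o : EuclideanSpace ℝ (Fin d)) (𝓕 : Set (Finset (Fin d))) (hcov : ∀ i, ∃ F ∈ 𝓕, i ∈ F)
    (K : Set (EuclideanSpace ℝ (Fin d)))
    (hK : K = {x | ∃ c : Fin d → ℝ, x = o + ∑ i, c i • b i ∧ ∀ F ∈ 𝓕, ∑ i ∈ F, |c i| ≤ 1})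
    (hW : ∀ W : Finset (Fin d), (∀ i ∈ W, ∀ j ∈ W, ∃ F ∈ 𝓕, i ∈ F ∧ j ∈ F) →
      W.card ≤ 13 ∨ (∀ F ∈ 𝓕, (F ∩ W).card ≤ 7) ∨
        ∃ Y ⊆ W, (∀ c : Fin d → ℝ, (∀ F ∈ 𝓕, ∑ i ∈ F, |c i| ≤ 1) → ∑ i ∈ Y, |c i| < 2) ∧
          (Y = W ∨ ∀ F ∈ 𝓕, (Y.card + 1) * 2 ^ ((F ∩ W).card + 1) ≤ 2 ^ Y.card)) :
    (∃ w : Fin (2 ^ d) → EuclideanSpace ℝ (Fin d), ∃ b : Fin (2 ^ d) → ℝ,
          ∀ u x₀ : EuclideanSpace ℝ (Fin d), u ≠ 0 → x₀ ∈ K →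
            (∀ y ∈ K, ⟪u, y⟫_ℝ ≤ ⟪u, x₀⟫_ℝ) →
              ∃ i, ⟪w i, o⟫_ℝ < b i ∧
                ∀ x ∈ K, ⟪u, x⟫_ℝ = ⟪u, x₀⟫_ℝ → b i < ⟪w i, x⟫_ℝ) ∧
        ((¬ ∃ w : Fin (2 ^ d - 1) → EuclideanSpace ℝ (Fin d), ∃ b : Fin (2 ^ d - 1) → ℝ,
          ∀ u x₀ : EuclideanSpace ℝ (Fin d), u ≠ 0 → x₀ ∈ K →
            (∀ y ∈ K, ⟪u, y⟫_ℝ ≤ ⟪u, x₀⟫_ℝ) →
              ∃ i, ⟪w i, o⟫_ℝ < b i ∧
                ∀ x ∈ K, ⟪u, x⟫_ℝ = ⟪u, x₀⟫_ℝ → b i < ⟪w i, x⟫_ℝ) →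
          ∃ v : Fin d → EuclideanSpace ℝ (Fin d), ∃ t : Fin d → ℝ,
            LinearIndependent ℝ v ∧ (∀ i, 0 < t i) ∧
              K = convexHull ℝ (⋃ i, ({o + v i, o - t i • v i} :
                Set (EuclideanSpace ℝ (Fin d))))) :=
  Pool.Agent.Lib.MP_5e7226_co.Unc.unc_final b hb o 𝓕 hcov K hK hW

end Pool.Agent.Results.MP_5e7226_co.UnconditionalPolytopes
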