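import Pool.Agent.ZN.Cover

open MeasureTheory Set Module
open scoped InnerProductSpace

namespace Pool.Agent.Results.MP_5e7226_co.ZonoidsGoldenRatio

/-- `K` is a zonoid with centre `o`: for a finite Borel measure `μ` with finite first moment
(the generating measure) the support function of `K - o` is `u ↦ ∫ |⟨u, v⟩| dμ(v)`. -/
def IsZonoid {d : ℕ} (K : Set (EuclideanSpace ℝ (Fin d))) (o : EuclideanSpace ℝ (Fin d)) : Prop :=
  ∃ μ : Measure (EuclideanSpace ℝ (Fin d)), IsFiniteMeasure μ ∧ Integrable (fun v => ‖v‖) μ ∧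
    ∀ u : EuclideanSpace ℝ (Fin d),
      IsLUB ((fun x => ⟪u, x - o⟫_ℝ) '' K) (∫ v, |⟪u, v⟫_ℝ| ∂μ)

/-- `s(K, o) ≤ n`: some `n` hyperplanes strictly separate every face of `K` from `o`. -/
def SeparatedBy {d : ℕ} (K : Set (EuclideanSpace ℝ (Fin d))) (o : EuclideanSpace ℝ (Fin d))
    (n : ℕ) : Prop :=
  ∃ w : Fin n → EuclideanSpace ℝ (Fin d), ∃ b : Fin n → ℝ,
    ∀ u x₀ : EuclideanSpace ℝ (Fin d), u ≠ 0 → x₀ ∈ K →
      (∀ y ∈ K, ⟪u, y⟫_ℝ ≤ ⟪u, x₀⟫_ℝ) →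
        ∃ i, ⟪w i, o⟫_ℝ < b i ∧ ∀ x ∈ K, ⟪u, x⟫_ℝ = ⟪u, x₀⟫_ℝ → b i < ⟪w i, x⟫_ℝ

lemma SeparatedBy.mono {d : ℕ} {K : Set (EuclideanSpace ℝ (Fin d))}
    {o : EuclideanSpace ℝ (Fin d)} {n m : ℕ} (h : SeparatedBy K o n) (hnm : n ≤ m) :
    SeparatedBy K o m := by
  obtain ⟨w, b, hw⟩ := h
  refine ⟨fun i => if hi : (i : ℕ) < n then w ⟨i, hi⟩ else 0,
    fun i => if hi : (i : ℕ) < n then b ⟨i, hi⟩ else 0, fun u x₀ hu hx₀ hmax => ?_⟩
  obtain ⟨i, hi1, hi2⟩ := hw u x₀ hu hx₀ hmax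
  refine ⟨⟨i, lt_of_lt_of_le i.2 hnm⟩, ?_, ?_⟩
  · simpa using hi1
  · intro x hx hxe
    simpa using hi2 x hx hxe

lemma separatedBy_of_zonoid {d : ℕ} (hd : 1 ≤ d) {K : Set (EuclideanSpace ℝ (Fin d))}
    {o : EuclideanSpace ℝ (Fin d)} (ho : o ∈ interior K) (hK : IsZonoid K o) :
    ∃ n : ℕ, (n : ℝ) ≤ 500 * (d : ℝ) ^ 3 * Real.goldenRatio ^ d ∧ SeparatedBy K o n := by
  obtain ⟨μ, hfin, hint, hsup⟩ := hK
  let F : EuclideanSpace ℝ (Fin d) → EuclideanSpace ℝ (Fin d) →ₗ[ℝ] ℝ :=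
    fun v => (innerSL ℝ v : EuclideanSpace ℝ (Fin d) →ₗ[ℝ] ℝ)
  have hFa : ∀ v b, F v b = ⟪b, v⟫_ℝ := by
    intro v b
    have h1 : F v b = ⟪v, b⟫_ℝ := rfl
    rw [h1]
    exact real_inner_comm _ _
  have hdat : ZN.Dat μ F := by
    constructor
    · intro b
      simp_rw [hFa]
      exact (continuous_const.inner continuous_id).measurable
    · intro b
      refine (hint.const_mul ‖b‖).mono' ?_ ?_
      · simp_rw [hFa]
        exact (continuous_const.inner continuous_id).measurable.aestronglyMeasurable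
      · filter_upwards with v
        rw [hFa, Real.norm_eq_abs]
        exact abs_real_inner_le_norm b v
  have hnm : ∀ u, ZN.nm μ F u = ∫ v, |⟪u, v⟫_ℝ| ∂μ := by
    intro u
    unfold ZN.nm
    simp_rw [hFa]
  have hub : ∀ u, ∀ x ∈ K, ⟪u, x - o⟫_ℝ ≤ ZN.nm μ F u := by
    intro u x hx
    rw [hnm]
    exact (hsup u).1 ⟨x, hx, rfl⟩
  have hpos : ∀ u, u ≠ 0 → 0 < ZN.nm μ F u := by
    intro u hu
    have hun : 0 < ‖u‖ := norm_pos_iff.mpr hu
    obtain ⟨r, hr, hball⟩ := Metric.isOpen_iff.mp isOpen_interior o ho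
    have hmem : o + (r / 2 / ‖u‖) • u ∈ K := by
      apply interior_subset
      apply hball
      rw [Metric.mem_ball, dist_eq_norm, add_sub_cancel_left, norm_smul, Real.norm_eq_abs,
        abs_of_pos (by positivity), div_mul_cancel₀ _ hun.ne']
      linarith
    have h1 := hub u _ hmem
    rw [add_sub_cancel_left, inner_smul_right, real_inner_self_eq_norm_sq] at h1
    have : 0 < r / 2 / ‖u‖ * ‖u‖ ^ 2 := by positivity
    linarith
  have hfr : finrank ℝ (EuclideanSpace ℝ (Fin d)) = d := by simp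
  obtain ⟨n, w, hn, η, hη, hw⟩ := hdat.cover hpos (by rw [hfr]; exact hd)
  rw [hfr] at hn
  refine ⟨n, hn, w, fun i => ⟪w i, o⟫_ℝ + η * ZN.nm μ F (w i) / 4, fun u x₀ hu hx₀ hmax => ?_⟩
  have hNu := hpos u hu
  -- the maximum is the support function
  have hx₀N : ⟪u, x₀ - o⟫_ℝ = ZN.nm μ F u := by
    apply le_antisymm (hub u x₀ hx₀)
    rw [hnm]
    apply (hsup u).2
    rintro _ ⟨y, hy, rfl⟩
    simp only [inner_sub_right]
    linarith [hmax y hy]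
  obtain ⟨i, t, ht, hi⟩ := hw ((ZN.nm μ F u)⁻¹ • u) (by
    rw [ZN.nm_smul, abs_of_pos (inv_pos.mpr hNu), inv_mul_cancel₀ hNu.ne'])
  have hface : ∀ x ∈ K, ⟪u, x⟫_ℝ = ⟪u, x₀⟫_ℝ → η ≤ t * ⟪w i, x - o⟫_ℝ := by
    intro x hx hxe
    have h1 : ⟪u, x - o⟫_ℝ = ZN.nm μ F u := by
      rw [← hx₀N, inner_sub_right, inner_sub_right, hxe]
    have h2 := hub ((ZN.nm μ F u)⁻¹ • u - t • w i) x hx
    rw [inner_sub_left, inner_smul_left, inner_smul_left, h1] at h2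
    simp only [conj_trivial] at h2
    rw [inv_mul_cancel₀ hNu.ne'] at h2
    linarith
  have hx₀f := hface x₀ hx₀ rfl
  have htpos : 0 < t := by
    rcases ht.eq_or_lt with h | h
    · rw [← h, zero_mul] at hx₀f
      linarith
    · exact h
  have hwi : w i ≠ 0 := by
    intro h0
    rw [h0, inner_zero_left, mul_zero] at hx₀f
    linarith
  have hNw := hpos (w i) hwi
  have htN : t * ZN.nm μ F (w i) ≤ 2 := by
    have h1 : t * ZN.nm μ F (w i) = ZN.nm μ F (t • w i) := by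
      rw [ZN.nm_smul, abs_of_pos htpos]
    have h2 := hdat.nm_sub_le ((ZN.nm μ F u)⁻¹ • u) ((ZN.nm μ F u)⁻¹ • u - t • w i)
    rw [sub_sub_cancel] at h2
    have h3 : ZN.nm μ F ((ZN.nm μ F u)⁻¹ • u) = 1 := by
      rw [ZN.nm_smul, abs_of_pos (inv_pos.mpr hNu), inv_mul_cancel₀ hNu.ne']
    rw [h1]
    linarith
  refine ⟨i, ?_, ?_⟩
  · have : 0 < η * ZN.nm μ F (w i) / 4 := by positivity
    linarith
  · intro x hx hxe
    have h1 := hface x hx hxe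
    have h2 : η * ZN.nm μ F (w i) / 2 ≤ ⟪w i, x - o⟫_ℝ := by
      have h3 : η * (t * ZN.nm μ F (w i)) ≤ 2 * (t * ⟪w i, x - o⟫_ℝ) := by
        have h4 : η * (t * ZN.nm μ F (w i)) ≤ η * 2 := mul_le_mul_of_nonneg_left htN hη.le
        linarith
      have h5 : t * (η * ZN.nm μ F (w i)) ≤ t * (2 * ⟪w i, x - o⟫_ℝ) := by linarith
      have h6 := le_of_mul_le_mul_left h5 htpos
      linarith
    have h7 : 0 < η * ZN.nm μ F (w i) / 4 := by positivity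
    rw [inner_sub_right] at h2
    linarith

/-- For every zonoid `K ⊂ E^d` with centre `o` one has `s(K, o) ≤ 500 d³ ((1+√5)/2)^d`, and for
`d ≥ 100` even `2^d - 1` hyperplanes suffice. -/
theorem result : ∀ d : ℕ, 1 ≤ d → ∀ K : Set (EuclideanSpace ℝ (Fin d)), Convex ℝ K →
    IsCompact K → ∀ o ∈ interior K, IsZonoid K o →
      (∃ n : ℕ, (n : ℝ) ≤ 500 * (d : ℝ) ^ 3 * ((1 + √5) / 2) ^ d ∧ SeparatedBy K o n) ∧
      (100 ≤ d → SeparatedBy K o (2 ^ d - 1)) := by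
  intro d hd K _ _ o ho hK
  obtain ⟨n, hn, hs⟩ := separatedBy_of_zonoid hd ho hK
  refine ⟨⟨n, hn, hs⟩, fun hd100 => hs.mono ?_⟩
  have h1 := ZN.numeric_lt d hd100
  have h2 : (n : ℝ) < 2 ^ d := lt_of_le_of_lt hn h1
  have h3 : n < 2 ^ d := by exact_mod_cast h2
  omega

end Pool.Agent.Results.MP_5e7226_co.ZonoidsGoldenRatio
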